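import Mathlib
import Pool.Agent.Q201.ExtMat

set_option autoImplicit false

/-!
# An extremal multidimensional (0,1)-matrix of deficiency `2 / 71`

The example comes from the constant-sum weighted majority game with the 10 weights
`32, 28, 17, 17, 13, 13, 11, 3, 3, 3` of total `140` and quota `71`: no coalition has weight `70`, and
the linear program of the minimal total weight of a representation has the optimal value `140 / 71`.
-/

namespace Pool.Agent.Results.MP_1f9c83_co.DeficiencyTwoOver71

open Q201.ExtMat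

variable {d n : ℕ}

/-- `K` is a polydiagonal of `A`: a polyplex with all hyperplane sums equal to `1`. -/
def IsPolydiagonal (A : Set (Fin d → Fin n)) (K : (Fin d → Fin n) → ℝ) : Prop :=
  IsPolyplex A K ∧ ∀ (i : Fin d) (j : Fin n), ∑ α with α i = j, K α = 1

/-- `A` is extremal: it has no polydiagonal, but it has one after changing any zero entry to one. -/
def Extremal (A : Set (Fin d → Fin n)) : Prop :=
  (¬ ∃ K, IsPolydiagonal A K) ∧ ∀ α, α ∉ A → ∃ K, IsPolydiagonal (insert α A) K

/-- The deficiency of `A` is `δ`: the maximal weight of a polyplex is `n - δ`. -/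
def HasDeficiency (A : Set (Fin d → Fin n)) (δ : ℝ) : Prop :=
  IsGreatest {x : ℝ | ∃ K, IsPolyplex A K ∧ ∑ α, K α = x} (n - δ)

/-- the weights -/
def wt (i : ℕ) : ℕ := [32, 28, 17, 17, 13, 13, 11, 3, 3, 3].getD i 0

/-- the coalitions of the dual solution, as bit masks -/
def mask (k : Fin 10) : ℕ := ![67, 917, 937, 54, 58, 910, 124, 498, 754, 882] k

/-- their multiplicities -/
def mult (k : Fin 10) : ℕ := ![29, 21, 21, 4, 4, 19, 27, 5, 5, 5] k

theorem wt_zero : ∀ i, 10 ≤ i → wt i = 0 := by
  intro i hi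
  unfold wt
  rw [List.getD_eq_default]
  simpa using hi

theorem bool_split : ∀ b0 b1 b2 b3 b4 b5 b6 b7 b8 b9 : Bool,
    71 ≤ (if b0 then 32 else 0) + (if b1 then 28 else 0) + (if b2 then 17 else 0) +
      (if b3 then 17 else 0) + (if b4 then 13 else 0) + (if b5 then 13 else 0) +
      (if b6 then 11 else 0) + (if b7 then 3 else 0) + (if b8 then 3 else 0) + (if b9 then 3 else 0) ∨
    (if b0 then 32 else 0) + (if b1 then 28 else 0) + (if b2 then 17 else 0) +
      (if b3 then 17 else 0) + (if b4 then 13 else 0) + (if b5 then 13 else 0) +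
      (if b6 then 11 else 0) + (if b7 then 3 else 0) + (if b8 then 3 else 0) +
      (if b9 then 3 else 0) + 71 ≤ 140 := by
  decide +kernel

theorem split (b : ℕ → Bool) : 71 ≤ ∑ i ∈ Finset.range 10, (if b i then wt i else 0) ∨
    (∑ i ∈ Finset.range 10, if b i then wt i else 0) + 71 ≤ 140 := by
  have h := bool_split (b 0) (b 1) (b 2) (b 3) (b 4) (b 5) (b 6) (b 7) (b 8) (b 9)
  simpa [Finset.sum_range_succ, wt] using h

/-- **Main theorem.** For all `d ≥ 10` and `n ≥ 2` there is an extremal `d`-dimensional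
`(0,1)`-matrix of order `n` whose deficiency is `2 / 71`, which is not the reciprocal of an integer. -/
theorem result (d n : ℕ) (hd : 10 ≤ d) (hn : 2 ≤ n) : ∃ (A : Set (Fin d → Fin n)) (δ : ℝ),
    Extremal A ∧ HasDeficiency A δ ∧ δ = 2 / 71 ∧ ∀ m : ℕ, δ ≠ 1 / m := by
  have hW : ∑ i ∈ Finset.range 10, wt i = 140 := by decide
  have hcov := cover_mat (d := d) (n := n) (w := wt) (q := 71) (by norm_num)
  have hcw := cover_weight (d := d) (n := n) (w := wt) (q := 71) (W := 140) hn hd (by norm_num)
    wt_zero (by norm_num) hW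
  have hle : ∀ K, IsPolyplex (mat d n wt 71) K → ∑ α, K α ≤ n - 2 / 71 := by
    intro K hK
    have h1 := weak_duality hK hcov
    rw [hcw] at h1
    norm_num at h1 ⊢
    linarith
  refine ⟨mat d n wt 71, 2 / 71, ⟨?_, fun α hα => ?_⟩, ⟨?_, ?_⟩, rfl, ?_⟩
  · rintro ⟨K, hK, hrow⟩
    have h1 := hle K hK
    have h2 := sum_fiber K (⟨0, by omega⟩ : Fin d)
    simp_rw [hrow] at h2
    simp only [Finset.sum_const, Finset.card_univ, Fintype.card_fin, nsmul_eq_mul, mul_one] at h2
    rw [← h2] at h1
    linarith
  · obtain ⟨K, hK, h⟩ := diagonal_of_notMem (w := wt) (q := 71) hn (by omega)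
      (split_of hd wt_zero hW split) hα
    exact ⟨K, hK, h⟩
  · obtain ⟨K, hK, h⟩ := exists_polyplex (d := d) (n := n) (w := wt) (q := 71) (W := 140) (r := 10)
      (m := 10) hn hd (by norm_num) (by norm_num) (by norm_num) (fun k i => (mask k).testBit i) mult
      (by decide +kernel) (by decide +kernel) (by decide +kernel)
    refine ⟨K, hK, ?_⟩
    rw [h]
    norm_num
  · rintro x ⟨K, hK, rfl⟩
    exact hle K hK
  · intro m h
    rcases Nat.eq_zero_or_pos m with rfl | hm
    · norm_num at h
    · have hm' : (m : ℝ) ≠ 0 := by exact_mod_cast hm.ne'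
      rw [div_eq_div_iff (by norm_num) hm'] at h
      have h2 : 2 * m = 71 := by
        have : (2 : ℝ) * m = 71 := by linarith
        exact_mod_cast this
      omega

end Pool.Agent.Results.MP_1f9c83_co.DeficiencyTwoOver71
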